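import Mathlib

/-!
# Varieties of general type, in terms of their function field
-/

open MvPolynomial

noncomputable section

namespace Pool.Agent.H17GT

section FunctionField

variable {K : Type} [Field K] [Algebra ℂ K] {k : ℕ}

end FunctionField

/-- The coordinate function `x_i` in the fraction field of the homogeneous coordinate ring. -/
def coordFun {N : ℕ} (P : Ideal (MvPolynomial (Fin (N + 1)) ℂ)) [P.IsPrime] (i : Fin (N + 1)) :
    FractionRing (MvPolynomial (Fin (N + 1)) ℂ ⧸ P) :=
  algebraMap (MvPolynomial (Fin (N + 1)) ℂ ⧸ P) _ (Ideal.Quotient.mk P (X i))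

/-- The function field of the closed subvariety of `ℙ^N` given by the homogeneous prime ideal `P`:
the field generated over `ℂ` by the functions `x_i / x_j`. -/
def functionField {N : ℕ} (P : Ideal (MvPolynomial (Fin (N + 1)) ℂ)) [P.IsPrime] :
    IntermediateField ℂ (FractionRing (MvPolynomial (Fin (N + 1)) ℂ ⧸ P)) :=
  IntermediateField.adjoin ℂ {y | ∃ i j, y = coordFun P i / coordFun P j}

end Pool.Agent.H17GT
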